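import Pool.Agent.Helper99.Rohr.Main

/-!
Reduction of Rohrlich's question on products of gamma values to half-systems.

A half-system of level `N` contains exactly one of `j`, `N - j` for every `0 < j < N`, `j ≠ N / 2`.
Every tuple `a_1, .., a_r` is equivalent, for both sides of Rohrlich's question, to a half-system of
level `2 M ^ 2`, for every `M` divisible by a suitable `M₀`.
-/

namespace Pool.Agent.Results.MP_c2409d_nt.HalfSystems

open Pool.Agent.Helper99.Rohr

theorem result :
    -- every tuple is equivalent to a half-system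
    (∀ (D r : ℕ) (a : Fin r → ℚ), Adm D a → ∃ M₀ > 0, ∀ M > 0, M₀ ∣ M →
      ∃ S : Finset ℕ, HalfSystem (2 * M ^ 2) S ∧
        (GammaMult a ↔ GammaHalf (2 * M ^ 2) S (intCount a)) ∧
        (FracId D a ↔ intCount a = 0 ∧ FracHalf (2 * M ^ 2) S)) ∧
    -- the question is equivalent to its restriction to half-systems
    ((∀ (D r : ℕ) (a : Fin r → ℚ), Adm D a → (GammaMult a ↔ FracId D a)) ↔
      ∀ (n : ℕ) (S : Finset ℕ), HalfSystem (2 * n.factorial ^ 2) S → ∀ k : ℕ,
        (GammaHalf (2 * n.factorial ^ 2) S k ↔ k = 0 ∧ FracHalf (2 * n.factorial ^ 2) S)) ∧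
    -- the same for the `only if` half
    ((∀ (D r : ℕ) (a : Fin r → ℚ), Adm D a → GammaMult a → FracId D a) ↔
      ∀ (n : ℕ) (S : Finset ℕ), HalfSystem (2 * n.factorial ^ 2) S → ∀ k : ℕ,
        GammaHalf (2 * n.factorial ^ 2) S k → k = 0 ∧ FracHalf (2 * n.factorial ^ 2) S) ∧
    -- the same for the `only if` half without integers among the `a_i`
    ((∀ (D r : ℕ) (a : Fin r → ℚ), Adm D a → intCount a = 0 → GammaMult a → FracId D a) ↔
      ∀ (n : ℕ) (S : Finset ℕ), HalfSystem (2 * n.factorial ^ 2) S →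
        GammaHalf (2 * n.factorial ^ 2) S 0 → FracHalf (2 * n.factorial ^ 2) S) :=
  ⟨fun _ _ _ ha => transfer ha, reduction (fun p q => p ↔ q), reduction (fun p q => p → q),
    reduction_zero (fun p q => p → q)⟩

end Pool.Agent.Results.MP_c2409d_nt.HalfSystems
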