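import Pool.Agent.GP.DedMi

/-!
For every denominator `D ≥ 3` and every length `r ≥ 1` the proportion of the `r`-tuples from
`{1/D, ..., D/D}` whose gamma product is a given real number times a number algebraic over
`ℚ(π)` is at most `3/4 + 1/(2D)` and at most `√(6 / (r + 1))`.
-/

namespace Pool.Agent.Results.MP_c2409d_nt.TupleDensity

open IntermediateField

theorem result (D : ℕ) (hD : 3 ≤ D) (r : ℕ) (hr : 1 ≤ r) (c : ℝ) :
    4 * {j : Fin r → ℕ | (∀ i, 1 ≤ j i ∧ j i ≤ D) ∧ ∃ α : ℝ,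
        IsAlgebraic ℚ⟮(Real.pi : ℂ)⟯ (α : ℂ) ∧
        ∏ i, Real.Gamma ((j i : ℝ) / D) = c * α}.ncard ≤ (3 * D + 2) * D ^ (r - 1) ∧
    ({j : Fin r → ℕ | (∀ i, 1 ≤ j i ∧ j i ≤ D) ∧ ∃ α : ℝ,
        IsAlgebraic ℚ⟮(Real.pi : ℂ)⟯ (α : ℂ) ∧
        ∏ i, Real.Gamma ((j i : ℝ) / D) = c * α}.ncard : ℝ) ≤ √ (6 / (r + 1)) * (D : ℝ) ^ r := by
  classical
  have h : {j : Fin r → ℕ | (∀ i, 1 ≤ j i ∧ j i ≤ D) ∧ ∃ α : ℝ,
        IsAlgebraic ℚ⟮(Real.pi : ℂ)⟯ (α : ℂ) ∧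
        ∏ i, Real.Gamma ((j i : ℝ) / D) = c * α}.ncard =
      ((Fintype.piFinset fun _ : Fin r => Finset.Icc 1 D).filter
        fun j => GP.DedM.PiMult D c j).card := by
    rw [← Set.ncard_coe_finset]
    congr 1
    ext j
    simp only [Set.mem_ofPred_eq, Finset.mem_coe]
    rw [Finset.mem_filter, Fintype.mem_piFinset]
    simp only [Finset.mem_Icc, GP.DedM.PiMult]
  rw [h]
  exact ⟨GP.DedM.thmC_quarter D hD r hr c, GP.DedM.thmC GP.DedM.thmAll D hD r c⟩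

end Pool.Agent.Results.MP_c2409d_nt.TupleDensity
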