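import Pool.Agent.Helper32.ZeroOne.Link

/-!
A zero-one law for Rohrlich's question on products of gamma values.

For every common denominator `D`, either the `only if` half of the question holds for all tuples
with common denominator `D`, or among the `r`-tuples from `{1 / D, 2 / D, ..., D / D}` whose gamma
product is an algebraic multiple of `π ^ (r / 2)` the proportion of those which satisfy the
fractional-part identity tends to `0` as `r` tends to infinity.
-/

namespace Pool.Agent.Results.MP_c2409d_nt.ZeroOneLaw

open Pool.Agent.Helper32.ZeroOne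

theorem result (D : ℕ) (hD : 2 ≤ D) :
    (∀ (r : ℕ) (a : Fin r → ℚ), (∀ (i : Fin r) (n : ℕ), a i ≠ -(n : ℚ)) →
      (∀ i : Fin r, ∃ z : ℤ, (D : ℚ) * a i = z) → GammaMult a → FracId D a) ∨
    (∀ ε : ℝ, 0 < ε → ∃ R : ℕ, ∀ r, R ≤ r → (bothCount D r : ℝ) ≤ ε * gammaCount D r) :=
  main D hD

end Pool.Agent.Results.MP_c2409d_nt.ZeroOneLaw
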